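import Pool.Agent.Helper3.TG.GoalsTr
import Pool.Agent.Helper61.HC.PRJ

/-!
# Project TG (MP_a41896_nt), packet LPRJ: projections, local form
-/

set_option autoImplicit false

open MvPolynomial

namespace Pool.Agent.Helper2.TG.LPRJ

open WeierstrassCurve Height Height.AdmissibleAbsValues
open Pool.Agent.Helper29.BL Pool.Agent.Helper92.Ru Pool.Agent.Helper42.SG
open Pool.Agent.Helper5.UN (hv CodimGT cH)
open Pool.Agent.Helper60.HC
open Pool.Agent.Helper61.HC.PRJ (exists_ren trb hv_ne)

noncomputable section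

theorem t (h2 : Pool.Agent.Helper60.HC.S_ELOC2) : Pool.Agent.Helper3.TG.LPRJ := by
  classical
  intro K _ _ σ _ _ s D ι _ f hdeg hcod I hI hI1
  obtain ⟨E, B, hE, hB, hJ⟩ := h2 K σ s D ι f hdeg hcod
  have hJ' : ∀ i : {i // i ∈ I}, ∃ P : MvPolynomial σ K, P ≠ 0 ∧ (∀ i, P.degreeOf i ≤ E) ∧
      (∀ j, j ∉ I.erase i.1 → P.degreeOf j = 0) ∧ ∀ (v : AbsoluteValue K ℝ) (x : σ → K),
        v (eval x P) * (∏ i, Mv v (x i)) ^ D ≤
          B v * (∏ i ∈ I.erase i.1, Mv v (x i)) ^ E * ⨆ j, v (eval x (f j)) := by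
    intro i
    refine hJ (I.erase i.1) ?_
    rw [Finset.card_erase_of_mem i.2]
    omega
  choose P hP0 hPE hPJ hPv using hJ'
  have hQ' : ∀ i : {i // i ∈ I}, ∃ Q : MvPolynomial {j // j ∈ I.erase i.1} K,
      rename Subtype.val Q = P i := fun i => exists_ren _ _ (hPJ i)
  choose Q hQ using hQ'
  have hQ0 : ∀ i, Q i ≠ 0 := by
    intro i h
    apply hP0 i
    rw [← hQ i, h, map_zero]
  -- the inclusion
  set em : ∀ i : {i // i ∈ I}, {j // j ∈ I.erase i.1} → {j // j ∈ I} :=
    fun i j => ⟨j.1, Finset.mem_of_mem_erase j.2⟩ with hem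
  have hemi : ∀ i, Function.Injective (em i) := by
    intro i a b h
    have h1 : (em i a).1 = (em i b).1 := by rw [h]
    exact Subtype.ext h1
  have hemn : ∀ i j, em i j ≠ i := by
    intro i j h
    have h1 : j.1 = i.1 := congrArg Subtype.val h
    exact (Finset.mem_erase.mp j.2).1 h1
  have hemr : ∀ i, rename Subtype.val (rename (em i) (Q i)) = P i := by
    intro i
    rw [rename_rename, ← hQ i]
    rfl
  have hdQ : ∀ i j, degreeOf j (rename (em i) (Q i)) = degreeOf j.1 (P i) := by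
    intro i j
    rw [← hemr i, degreeOf_rename_of_injective Subtype.val_injective]
  have hdQi : ∀ i, degreeOf i (rename (em i) (Q i)) = 0 := by
    intro i
    rw [hdQ]
    exact hPJ i i.1 (Finset.notMem_erase _ _)
  set f' : ({i // i ∈ I} × Bool) → MvPolynomial {i // i ∈ I} K :=
    fun a => rename (em a.1) (Q a.1) * X a.1 ^ (if a.2 then E else 0) with hf'
  have hdf : ∀ (i j : {i // i ∈ I}) (k : ℕ), k ≤ E →
      degreeOf j (rename (em i) (Q i) * X i ^ k) ≤ E := by
    intro i j k hk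
    by_cases hij : j = i
    · subst hij
      refine (degreeOf_mul_le _ _ _).trans ?_
      rw [hdQi, zero_add]
      refine (degreeOf_pow_le _ _ _).trans ?_
      rw [degreeOf_X, if_pos rfl, mul_one]
      exact hk
    · rw [degreeOf_mul_X_pow_of_ne _ hij, hdQ]
      exact hPE i _
  have hdf' : ∀ j i, degreeOf i (f' j) ≤ E := by
    intro j i
    refine hdf j.1 i _ ?_
    split_ifs
    · exact le_rfl
    · exact Nat.zero_le _
  have hev : ∀ (a : {i // i ∈ I} × Bool) (x : σ → K),
      eval (fun i : {i // i ∈ I} => x i.1) (f' a) =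
        eval x (P a.1) * x a.1.1 ^ (if a.2 then E else 0) := by
    intro a x
    simp only [hf']
    rw [map_mul, map_pow, eval_X]
    congr 1
    rw [← hemr a.1, eval_rename, eval_rename, eval_rename]
    rfl
  obtain ⟨i₀, hi₀⟩ : I.Nonempty := Finset.card_pos.mp (by omega)
  set k₀ : {i // i ∈ I} := ⟨i₀, hi₀⟩ with hk₀
  have : Nonempty {i // i ∈ I} := ⟨k₀⟩
  refine ⟨E, {i // i ∈ I} × Bool, inferInstance, f', B, hdf', ?_, hB, ?_⟩
  · -- codimension
    intro Ω _ _ y hy hzero
    have hcard : Fintype.card {i // i ∈ I} = I.card := Fintype.card_coe I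
    rcases trb (K := K) (fun i : {i // i ∈ I} => y i 0) (by rw [hcard]; exact hI1) with h | ⟨i, hi⟩
    · exact h
    · exfalso
      rcases hv_ne E y hy i hi (em i) (hemn i) (hemi i) (Q i) (hQ0 i)
        (fun j => hdf i j E le_rfl) with h | h
      · apply h
        have h3 := hzero (i, false)
        simpa [hf'] using h3
      · apply h
        have h3 := hzero (i, true)
        simpa [hf'] using h3
  · intro v x
    have hM : 0 < (∏ i, Mv v (x i)) ^ D := pow_pos (Finset.prod_pos fun i _ => Mv_pos _ _) _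
    have hMI : 0 < (∏ i : {i // i ∈ I}, Mv v (x i.1)) ^ E :=
      pow_pos (Finset.prod_pos fun i _ => Mv_pos _ _) _
    have hB1 := hB.one_le v
    have hB0 : 0 < B v := lt_of_lt_of_le one_pos hB1
    have hprodI : (∏ i : {i // i ∈ I}, Mv v (x i.1)) = ∏ i ∈ I, Mv v (x i) :=
      Finset.prod_coe_sort I (fun i => Mv v (x i))
    have h3 : (⨆ j, v (eval (fun i : {i // i ∈ I} => x i.1) (f' j))) *
        (∏ i, Mv v (x i)) ^ D ≤
        B v * (∏ i : {i // i ∈ I}, Mv v (x i.1)) ^ E * ⨆ j, v (eval x (f j)) := by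
      obtain ⟨a, ha⟩ := exists_eq_ciSup_of_finite
        (f := fun j => v (eval (fun i : {i // i ∈ I} => x i.1) (f' j)))
      rw [← ha, hev, map_mul, map_pow]
      have h4 := hPv a.1 v x
      have h5 : v (x a.1.1) ^ (if a.2 then E else 0) ≤ Mv v (x a.1.1) ^ E := by
        have h6 : v (x a.1.1) ≤ Mv v (x a.1.1) := le_max_right _ _
        split_ifs
        · exact pow_le_pow_left₀ (v.nonneg _) h6 _
        · rw [pow_zero]
          exact one_le_pow₀ (one_le_Mv _ _)
      have h6 : (∏ i : {i // i ∈ I}, Mv v (x i.1)) ^ E =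
          (∏ i ∈ I.erase a.1.1, Mv v (x i)) ^ E * Mv v (x a.1.1) ^ E := by
        rw [hprodI, ← mul_pow, Finset.prod_erase_mul _ _ a.1.2]
      rw [h6]
      have hsup : 0 ≤ ⨆ j, v (eval x (f j)) := Real.iSup_nonneg fun j => v.nonneg _
      calc v (eval x (P a.1)) * v (x a.1.1) ^ (if a.2 then E else 0) * (∏ i, Mv v (x i)) ^ D
          = v (eval x (P a.1)) * (∏ i, Mv v (x i)) ^ D * v (x a.1.1) ^ (if a.2 then E else 0) := by
            ring
        _ ≤ (B v * (∏ i ∈ I.erase a.1.1, Mv v (x i)) ^ E * ⨆ j, v (eval x (f j))) *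
            Mv v (x a.1.1) ^ E := by
            refine mul_le_mul h4 h5 (pow_nonneg (v.nonneg _) _) ?_
            refine mul_nonneg (mul_nonneg hB0.le ?_) hsup
            exact pow_nonneg (Finset.prod_nonneg fun i _ => (Mv_pos _ _).le) _
        _ = _ := by ring
    exact h3

end

end Pool.Agent.Helper2.TG.LPRJ
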